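import Pool.Agent.H38Sel.Main
import Pool.Agent.H38Sel.Bridge

namespace Pool.Agent.Results.MP_8e5827_nt.RatFuncTwo

universe u

/-- Over the rational function field of any finite field, the average size of the 2-Selmer group
of elliptic curves ordered by height exists and equals 3. -/
theorem result (k : Type u) [Field k] [Finite k] : SelStmt.SelmerAverage (RatFunc k) 2 3 :=
  SelAvg.selmerAverage_bridge SelAvg.selmerAverage_two

end Pool.Agent.Results.MP_8e5827_nt.RatFuncTwo
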